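import Pool.Agent.Helper63.TN.Defs2

/-!
# Reductions up to scalars, residue classes with infinitely many returns
-/

set_option autoImplicit false

namespace Pool.Agent.Helper44.TN

open MvPolynomial
open Pool.Agent.Helper16 (Place IsFunctionField)
open Pool.Agent.Helper36 (step iter)
open Pool.Agent.Helper38.TQ
open Pool.Agent.Helper30.TKN

variable {ν : ℕ} {k K : Type} [Field k] [Field K] [Algebra k K]

theorem red_peq {b : Place k K} {x : Fin (ν + 1) → K} {z z' : Fin (ν + 1) → k}
    (h : Red b x z) (hz : PEq z z') : Red b x z' := by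
  obtain ⟨h0, c, hc, h1⟩ := h
  obtain ⟨l, hl, rfl⟩ := hz
  have hl' : algebraMap k K l ≠ 0 := fun h => hl ((map_eq_zero _).1 h)
  refine ⟨smul_ne_zero hl h0, algebraMap k K l * c, mul_ne_zero hl' hc, fun i => ?_⟩
  have e : algebraMap k K l * c * x i - algebraMap k K ((l • z) i) =
      algebraMap k K l * (c * x i - algebraMap k K (z i)) := by
    rw [Pi.smul_apply, smul_eq_mul, map_mul]
    ring
  rw [e, map_mul, b.triv l hl, one_mul]
  exact h1 i

/-- A residue class with infinitely many elements of the set. -/
theorem exists_class {P : ℕ → Prop} (h : {n | P n}.Infinite) (i : ℕ) {N : ℕ} (hN : 0 < N) :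
    ∃ r < N, {j | P (i + r + N * j)}.Infinite := by
  by_contra hcon
  push Not at hcon
  refine h ((Set.Finite.union (Set.finite_lt_nat i) (Set.Finite.biUnion (Finset.range N).finite_toSet
    fun r hr => (Set.not_infinite.1 (by
      simpa using hcon r (Finset.mem_range.1 hr))).image fun j => i + r + N * j)).subset ?_)
  intro n hn
  rw [Set.mem_union]
  rcases lt_or_ge n i with h1 | h1
  · exact Or.inl h1
  · right
    have h2 : i + (n - i) % N + N * ((n - i) / N) = n := by
      have h3 := Nat.mod_add_div (n - i) N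
      omega
    refine Set.mem_biUnion (x := (n - i) % N) ?_ ⟨(n - i) / N, ?_, h2⟩
    · exact Finset.mem_coe.2 (Finset.mem_range.2 (Nat.mod_lt _ hN))
    · have h4 : P (i + (n - i) % N + N * ((n - i) / N)) := by
        rw [h2]
        exact hn
      exact h4

theorem peq_iter_mul [IsAlgClosed k] {d : ℕ} {f : Fin (ν + 1) → MvPolynomial (Fin (ν + 1)) k}
    (hf : IsEndo d f) {z : Fin (ν + 1) → k} {N : ℕ} (h : PEq z (iter f z N)) (j : ℕ) :
    PEq z (iter f z (N * j)) := by
  induction j with
  | zero =>
    rw [mul_zero]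
    exact PEq.refl z
  | succ j ih =>
    have h1 := PEq.iter hf h (N * j)
    rw [← Pool.Agent.Helper36.iter_add] at h1
    rw [Nat.mul_succ]
    exact ih.trans h1

end Pool.Agent.Helper44.TN
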